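import Pool.Agent.Helper3.TD.Alg

/-!
# The graph `T` is Borel
-/

namespace Pool.Agent.Helper3.TD

open SimpleGraph MeasureTheory

section reach

variable {Q α : Type*} [MeasurableSpace Q] [MeasurableSpace α] [StandardBorelSpace α]

/-- Points reachable in `n` steps, through an enumeration. -/
def St (H : Q → SimpleGraph α) (b : Q → α) (F : ℕ → Q → α) : ℕ → Q → α → Prop
  | 0, q, z => b q = z
  | n + 1, q, z => ∃ m, St H b F n q (F m q) ∧ (H q).Adj (F m q) z

omit [MeasurableSpace Q] [MeasurableSpace α] [StandardBorelSpace α] in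
lemma st_reach {H : Q → SimpleGraph α} {b : Q → α} {F : ℕ → Q → α} {n : ℕ} {q : Q} {z : α}
    (h : St H b F n q z) : (H q).Reachable (b q) z := by
  induction n generalizing z with
  | zero => rw [show b q = z from h]
  | succ n ih =>
    obtain ⟨m, h1, h2⟩ := h
    exact (ih h1).trans h2.reachable

/-- Reachability in a Borel family of graphs is Borel. -/
lemma measurable_reach {H : Q → SimpleGraph α} {b : Q → α} {F : ℕ → Q → α} (hb : Measurable b)
    (hH : Measurable fun p : Q × α × α => (H p.1).Adj p.2.1 p.2.2) (hF : ∀ m, Measurable (F m))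
    (henum : ∀ q z, (H q).Reachable (b q) z → ∃ m, F m q = z) :
    Measurable fun p : Q × α => (H p.1).Reachable (b p.1) p.2 := by
  have h1 : ∀ n, Measurable fun p : Q × α => St H b F n p.1 p.2 := by
    intro n
    induction n with
    | zero => exact Measurable.eq (hb.comp measurable_fst) measurable_snd
    | succ n ih =>
      refine Measurable.exists fun m => Measurable.and ?_ ?_
      · exact ih.comp (measurable_fst.prodMk ((hF m).comp measurable_fst))
      · exact hH.comp (measurable_fst.prodMk (((hF m).comp measurable_fst).prodMk measurable_snd))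
  have heq : (fun p : Q × α => (H p.1).Reachable (b p.1) p.2) =
      fun p : Q × α => ∃ n, St H b F n p.1 p.2 := by
    funext p
    apply propext
    constructor
    · intro h
      refine reach_closed (Z := {z | ∃ n, St H b F n p.1 z}) ?_ h ⟨0, rfl⟩
      rintro a c hac ⟨n, hn⟩
      obtain ⟨m, hm⟩ := henum p.1 a (st_reach hn)
      exact ⟨n + 1, m, hm ▸ hn, hm ▸ hac⟩
    · rintro ⟨n, hn⟩
      exact st_reach hn
  rw [heq]
  exact Measurable.exists h1

end reach

namespace Data

variable {X Y : Type*} [MeasurableSpace X] [StandardBorelSpace X] [MeasurableSpace Y]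
  [StandardBorelSpace Y] {P : Data X Y}

/-- The Borel conditions. -/
structure Bor (P : Data X Y) (f : ℕ → X → X) (g : ℕ → X → Y) : Prop where
  hf : ∀ n, Measurable (f n)
  hE : ∀ x y, P.G.Reachable x y → ∃ n, f n x = y
  hg : ∀ n, Measurable (g n)
  hIn : ∀ x y, P.In x y ↔ ∃ n, g n x = y
  hG : Measurable fun p : X × X => P.G.Adj p.1 p.2
  hT₀ : Measurable fun p : X × X => P.T₀.Adj p.1 p.2
  hS : Measurable fun p : Y × Y => P.S.Adj p.1 p.2
  hψ : Measurable P.ψ
  hne : ∀ y, ∃ x, P.In x y
  hcl : ∀ x x' y y', P.In x y → P.In x' y' → (y = y' ∨ P.S.Adj y y') → P.G.Reachable x x'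

variable {f : ℕ → X → X} {g : ℕ → X → Y}

lemma measurable_In (hB : P.Bor f g) : Measurable fun p : X × Y => P.In p.1 p.2 := by
  have heq : (fun p : X × Y => P.In p.1 p.2) = fun p : X × Y => ∃ n, g n p.1 = p.2 := by
    funext p
    exact propext (hB.hIn _ _)
  rw [heq]
  exact Measurable.exists fun n => Measurable.eq ((hB.hg n).comp measurable_fst) measurable_snd

/-- The forest `T₀` without the point `s`. -/
def minus (P : Data X Y) (s : X) : SimpleGraph X where
  Adj a b := P.T₀.Adj a b ∧ a ≠ s ∧ b ≠ s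
  symm := ⟨fun _ _ h => ⟨h.1.symm, h.2.2, h.2.1⟩⟩
  loopless := ⟨fun _ h => P.T₀.loopless.irrefl _ h.1⟩

omit [MeasurableSpace X] [StandardBorelSpace X] [MeasurableSpace Y] [StandardBorelSpace Y] in
lemma not_onPath_iff {u v s : X} :
    ¬ P.OnPath u v s ↔ u ≠ s ∧ (P.minus s).Reachable u v := by
  unfold OnPath
  push Not
  constructor
  · rintro ⟨w, hw⟩
    refine ⟨fun h => hw (h ▸ w.start_mem_support), ?_⟩
    induction w with
    | nil => exact Reachable.refl _
    | cons hadj w ih =>
      rw [Walk.support_cons, List.mem_cons] at hw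
      push Not at hw
      refine Reachable.trans (Adj.reachable ?_) (ih hw.2)
      exact ⟨hadj, hw.1.symm, fun h => hw.2 (h ▸ w.start_mem_support)⟩
  · rintro ⟨hus, ⟨w⟩⟩
    induction w with
    | nil => exact ⟨Walk.nil, by simpa using hus.symm⟩
    | cons hadj w ih =>
      obtain ⟨w', hw'⟩ := ih hadj.2.2
      exact ⟨Walk.cons hadj.1 w', by simp [hw', hus.symm]⟩

lemma measurable_onPath (h : P.Ok) (hB : P.Bor f g) :
    Measurable fun p : (X × X) × X => P.OnPath p.1.1 p.2 p.1.2 := by
  have h1 : Measurable fun p : (X × X) × X => (P.minus p.1.2).Reachable p.1.1 p.2 := by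
    refine measurable_reach (Q := X × X) (H := fun q => P.minus q.2) (b := fun q => q.1)
      (F := fun m q => f m q.1) measurable_fst ?_ (fun m => (hB.hf m).comp measurable_fst) ?_
    · refine Measurable.and ?_ (Measurable.and ?_ ?_)
      · exact hB.hT₀.comp (measurable_snd.fst.prodMk measurable_snd.snd)
      · exact (Measurable.eq measurable_snd.fst measurable_fst.snd).not
      · exact (Measurable.eq measurable_snd.snd measurable_fst.snd).not
    · rintro ⟨u, s⟩ z hz
      apply hB.hE
      rw [h.hreach]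
      have hle : P.minus s ≤ P.T₀ := fun _ _ hab => hab.1
      exact Reachable.mono hle hz
  have heq : (fun p : (X × X) × X => P.OnPath p.1.1 p.2 p.1.2) =
      fun p : (X × X) × X => ¬ (p.1.1 ≠ p.1.2 ∧ (P.minus p.1.2).Reachable p.1.1 p.2) := by
    funext p
    apply propext
    rw [← not_onPath_iff, not_not]
  rw [heq]
  exact (((Measurable.eq measurable_fst.fst measurable_fst.snd).not).and h1).not

/-- Nodes within distance `n` of the nodes containing `u, v`. -/
def NS (P : Data X Y) (n : ℕ) (u v : X) (z : Y) : Prop :=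
  ∃ y, y ∈ nodes P.In u v ∧ ∃ w : P.S.Walk y z, w.length ≤ n

omit [StandardBorelSpace X] [StandardBorelSpace Y] in
lemma node_enum (hB : P.Bor f g) {u : X} {y z : Y} (hu : P.In u y)
    (hr : P.S.Reachable y z) : ∃ i j, g i (f j u) = z := by
  have h1 := reach_closed (H := P.S) (Z := {z | ∀ x, P.In x z → P.G.Reachable u x}) ?_ hr
    (fun x hx => hB.hcl u x y y hu hx (Or.inl rfl))
  · obtain ⟨x, hx⟩ := hB.hne z
    obtain ⟨j, hj⟩ := hB.hE u x (h1 x hx)
    obtain ⟨i, hi⟩ := (hB.hIn x z).1 hx
    exact ⟨i, j, by rw [hj, hi]⟩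
  · intro a b hab ha x hx
    obtain ⟨x', hx'⟩ := hB.hne a
    exact (ha x' hx').trans (hB.hcl x' x a b hx' hx (Or.inr hab))

lemma measurable_NS (hB : P.Bor f g) (n : ℕ) :
    Measurable fun p : (X × X) × Y => P.NS n p.1.1 p.1.2 p.2 := by
  induction n with
  | zero =>
    have heq : (fun p : (X × X) × Y => P.NS 0 p.1.1 p.1.2 p.2) =
        fun p : (X × X) × Y => P.In p.1.1 p.2 ∧ P.In p.1.2 p.2 := by
      funext p
      apply propext
      constructor
      · rintro ⟨y, hy, w, hw⟩
        have := Walk.eq_of_length_eq_zero (Nat.le_zero.1 hw)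
        subst this
        exact hy
      · intro hy
        exact ⟨p.2, hy, Walk.nil, le_rfl⟩
    rw [heq]
    exact ((measurable_In hB).comp (measurable_fst.fst.prodMk measurable_snd)).and
      ((measurable_In hB).comp (measurable_fst.snd.prodMk measurable_snd))
  | succ n ih =>
    have heq : (fun p : (X × X) × Y => P.NS (n + 1) p.1.1 p.1.2 p.2) =
        fun p : (X × X) × Y => P.NS n p.1.1 p.1.2 p.2 ∨
          ∃ i j, P.NS n p.1.1 p.1.2 (g i (f j p.1.1)) ∧ P.S.Adj (g i (f j p.1.1)) p.2 := by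
      funext p
      apply propext
      constructor
      · rintro ⟨y, hy, w, hw⟩
        obtain ⟨w', hw'⟩ : ∃ w' : P.S.Walk p.2 y, w'.length ≤ n + 1 :=
          ⟨w.reverse, by simpa using hw⟩
        cases w' with
        | nil => exact Or.inl ⟨p.2, hy, Walk.nil, by simp⟩
        | @cons _ z' _ hadj w'' =>
          right
          obtain ⟨i, j, hij⟩ := node_enum hB (u := p.1.1) hy.1 (z := z') ⟨w''.reverse⟩
          refine ⟨i, j, ?_, ?_⟩
          · rw [hij]
            refine ⟨y, hy, w''.reverse, ?_⟩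
            rw [Walk.length_reverse]
            simp only [Walk.length_cons] at hw'
            omega
          · rw [hij]
            exact hadj.symm
      · rintro (⟨y, hy, w, hw⟩ | ⟨i, j, ⟨y, hy, w, hw⟩, hadj⟩)
        · exact ⟨y, hy, w, by omega⟩
        · exact ⟨y, hy, w.concat hadj, by rw [Walk.length_concat]; omega⟩
    rw [heq]
    refine ih.or (Measurable.exists fun i => Measurable.exists fun j => ?_)
    have h1 : Measurable fun p : (X × X) × Y => g i (f j p.1.1) :=
      (hB.hg i).comp ((hB.hf j).comp measurable_fst.fst)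
    exact (ih.comp (measurable_fst.prodMk h1)).and (hB.hS.comp (h1.prodMk measurable_snd))

lemma measurable_near (hB : P.Bor f g) (n : ℕ) :
    Measurable fun p : (X × X) × X => P.Near p.1.1 p.1.2 p.2 n := by
  cases n with
  | zero =>
    exact (Measurable.eq measurable_snd measurable_fst.fst).or
      (Measurable.eq measurable_snd measurable_fst.snd)
  | succ n =>
    have heq : (fun p : (X × X) × X => P.Near p.1.1 p.1.2 p.2 (n + 1)) =
        fun p : (X × X) × X => ∃ i, P.NS n p.1.1 p.1.2 (g i p.2) := by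
      funext p
      apply propext
      constructor
      · rintro ⟨y, z, hy, hz, w, hw⟩
        obtain ⟨i, rfl⟩ := (hB.hIn _ _).1 hz
        exact ⟨i, y, hy, w, hw⟩
      · rintro ⟨i, y, hy, w, hw⟩
        exact ⟨y, g i p.2, hy, (hB.hIn _ _).2 ⟨i, rfl⟩, w, hw⟩
    rw [heq]
    exact Measurable.exists fun i =>
      (measurable_NS hB n).comp (measurable_fst.prodMk ((hB.hg i).comp measurable_snd))

/-- A Borel version of `Good`. -/
def GoodB (P : Data X Y) (f : ℕ → X → X) (n : ℕ) (u v : X) : Prop :=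
  ∀ j, P.OnPath u v (f j u) → P.Near u v (f j u) n

omit [StandardBorelSpace X] [StandardBorelSpace Y] in
lemma goodB_iff (h : P.Ok) (hB : P.Bor f g) {u v : X} (huv : P.G.Adj u v) (n : ℕ) :
    P.GoodB f n u v ↔ P.Good u v n := by
  classical
  constructor
  · intro hg s hs
    obtain ⟨w⟩ := (h.hreach u v).1 huv.reachable
    obtain ⟨j, hj⟩ := hB.hE u s ((h.hreach u s).2 ⟨w.takeUntil s (hs w)⟩)
    have h1 := hg j
    rw [hj] at h1
    exact h1 hs
  · intro hg j hj
    exact hg _ hj

lemma measurable_goodB (h : P.Ok) (hB : P.Bor f g) (n : ℕ) :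
    Measurable fun p : X × X => P.GoodB f n p.1 p.2 := by
  refine Measurable.forall fun j => Measurable.imp ?_ ?_
  · exact (measurable_onPath h hB).comp
      ((measurable_fst.prodMk ((hB.hf j).comp measurable_fst)).prodMk measurable_snd)
  · exact (measurable_near hB n).comp (measurable_id.prodMk ((hB.hf j).comp measurable_fst))

/-- A Borel version of `D u v = n`. -/
def DE (P : Data X Y) (f : ℕ → X → X) (n : ℕ) (u v : X) : Prop :=
  P.G.Adj u v ∧ P.GoodB f n u v ∧ ∀ k, k < n → ¬ P.GoodB f k u v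

omit [StandardBorelSpace X] [StandardBorelSpace Y] in
lemma DE_iff (h : P.Ok) (hB : P.Bor f g) (n : ℕ) (u v : X) :
    P.DE f n u v ↔ P.G.Adj u v ∧ P.D u v = n := by
  constructor
  · rintro ⟨h1, h2, h3⟩
    refine ⟨h1, ?_⟩
    rw [goodB_iff h hB h1] at h2
    apply le_antisymm (D_le h2)
    by_contra hlt
    push Not at hlt
    apply h3 _ hlt
    rw [goodB_iff h hB h1]
    exact good_D h h1
  · rintro ⟨h1, rfl⟩
    refine ⟨h1, (goodB_iff h hB h1 _).2 (good_D h h1), ?_⟩
    intro k hk hg
    have := D_le ((goodB_iff h hB h1 _).1 hg)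
    omega

lemma measurable_DE (h : P.Ok) (hB : P.Bor f g) (n : ℕ) :
    Measurable fun p : X × X => P.DE f n p.1 p.2 :=
  hB.hG.and ((measurable_goodB h hB n).and (Measurable.forall fun k =>
    Measurable.imp measurable_const (measurable_goodB h hB k).not))

/-- The comparison of keys of edges. -/
lemma measurable_key (h : P.Ok) (hB : P.Bor f g) : Measurable fun p : (X × X) × (X × X) =>
    P.G.Adj p.1.1 p.1.2 ∧ P.G.Adj p.2.1 p.2.2 ∧ P.key p.1.1 p.1.2 < P.key p.2.1 p.2.2 := by
  have heq : (fun p : (X × X) × (X × X) => P.G.Adj p.1.1 p.1.2 ∧ P.G.Adj p.2.1 p.2.2 ∧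
      P.key p.1.1 p.1.2 < P.key p.2.1 p.2.2) = fun p : (X × X) × (X × X) =>
      ∃ m n, P.DE f m p.1.1 p.1.2 ∧ P.DE f n p.2.1 p.2.2 ∧ (m < n ∨ (m = n ∧
        (max (P.ψ p.1.1) (P.ψ p.1.2) < max (P.ψ p.2.1) (P.ψ p.2.2) ∨
          (max (P.ψ p.1.1) (P.ψ p.1.2) = max (P.ψ p.2.1) (P.ψ p.2.2) ∧
            min (P.ψ p.1.1) (P.ψ p.1.2) < min (P.ψ p.2.1) (P.ψ p.2.2))))) := by
    funext p
    apply propext
    constructor
    · rintro ⟨h1, h2, h3⟩
      rw [key_lt_iff] at h3
      exact ⟨_, _, (DE_iff h hB _ _ _).2 ⟨h1, rfl⟩, (DE_iff h hB _ _ _).2 ⟨h2, rfl⟩, h3⟩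
    · rintro ⟨m, n, h1, h2, h3⟩
      obtain ⟨h4, rfl⟩ := (DE_iff h hB _ _ _).1 h1
      obtain ⟨h5, rfl⟩ := (DE_iff h hB _ _ _).1 h2
      exact ⟨h4, h5, (key_lt_iff _ _ _ _).2 h3⟩
  rw [heq]
  have h1 : Measurable fun p : (X × X) × (X × X) => P.ψ p.1.1 := hB.hψ.comp measurable_fst.fst
  have h2 : Measurable fun p : (X × X) × (X × X) => P.ψ p.1.2 := hB.hψ.comp measurable_fst.snd
  have h3 : Measurable fun p : (X × X) × (X × X) => P.ψ p.2.1 := hB.hψ.comp measurable_snd.fst
  have h4 : Measurable fun p : (X × X) × (X × X) => P.ψ p.2.2 := hB.hψ.comp measurable_snd.snd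
  have hlt : ∀ {a b : (X × X) × (X × X) → ℝ}, Measurable a → Measurable b →
      Measurable fun p => a p < b p := fun ha hb => measurableSet_setOfPred.1 (measurableSet_lt ha hb)
  refine Measurable.exists fun m => Measurable.exists fun n => Measurable.and ?_
    (Measurable.and ?_ (Measurable.or measurable_const (Measurable.and measurable_const
      (Measurable.or ?_ (Measurable.and ?_ ?_)))))
  · exact (measurable_DE h hB m).comp measurable_fst
  · exact (measurable_DE h hB n).comp measurable_snd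
  · exact hlt (h1.max h2) (h3.max h4)
  · exact Measurable.eq (h1.max h2) (h3.max h4)
  · exact hlt (h1.min h2) (h3.min h4)

/-- A Borel version of `Below`. -/
def BelowB (P : Data X Y) (y : Y) (u v : X) : SimpleGraph X where
  Adj a b := P.G.Adj u v ∧ (P.Below y u v).Adj a b
  symm := ⟨fun _ _ h => ⟨h.1, h.2.symm⟩⟩
  loopless := ⟨fun _ h => (P.Below y u v).loopless.irrefl _ h.2⟩

lemma measurable_remB (h : P.Ok) (hB : P.Bor f g) :
    Measurable fun p : (Y × X × X) × X => (P.BelowB p.1.1 p.1.2.1 p.1.2.2).Reachable p.1.2.1 p.2 := by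
  refine measurable_reach (Q := Y × X × X) (H := fun q => P.BelowB q.1 q.2.1 q.2.2)
    (b := fun q => q.2.1) (F := fun m q => f m q.2.1) measurable_snd.fst ?_
    (fun m => (hB.hf m).comp measurable_snd.fst) ?_
  · have heq : (fun p : (Y × X × X) × X × X => (P.BelowB p.1.1 p.1.2.1 p.1.2.2).Adj p.2.1 p.2.2) =
        fun p : (Y × X × X) × X × X => (P.In p.2.1 p.1.1 ∧ P.In p.2.2 p.1.1) ∧
          (P.G.Adj p.2.1 p.2.2 ∧ P.G.Adj p.1.2.1 p.1.2.2 ∧
            P.key p.2.1 p.2.2 < P.key p.1.2.1 p.1.2.2) := by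
      funext p
      apply propext
      constructor
      · rintro ⟨h1, h2, h3, h4, _⟩
        exact ⟨h3, h2, h1, h4⟩
      · rintro ⟨h1, h2, h3, h4⟩
        exact ⟨h3, h2, h1, h4, (key_symm _ _).trans_lt h4⟩
    rw [heq]
    refine Measurable.and (Measurable.and ?_ ?_) ?_
    · exact (measurable_In hB).comp (measurable_snd.fst.prodMk measurable_fst.fst)
    · exact (measurable_In hB).comp (measurable_snd.snd.prodMk measurable_fst.fst)
    · exact (measurable_key h hB).comp (measurable_snd.prodMk measurable_fst.snd)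
  · rintro ⟨y, u, v⟩ z hz
    apply hB.hE
    have hle : P.BelowB y u v ≤ P.G := fun _ _ hab => hab.2.1
    exact Reachable.mono hle hz

/-- The graph `T` is Borel. -/
lemma measurable_T (h : P.Ok) (hB : P.Bor f g) : Measurable fun p : X × X => P.T.Adj p.1 p.2 := by
  have heq : (fun p : X × X => P.T.Adj p.1 p.2) = fun p : X × X => P.G.Adj p.1 p.2 ∧
      ∀ i, P.In p.2 (g i p.1) → ¬ (P.BelowB (g i p.1) p.1 p.2).Reachable p.1 p.2 := by
    funext p
    apply propext
    constructor
    · rintro ⟨h1, h2⟩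
      refine ⟨h1, fun i hi hr => h2 (g i p.1) ⟨(hB.hIn _ _).2 ⟨i, rfl⟩, hi⟩ ?_⟩
      have hle : P.BelowB (g i p.1) p.1 p.2 ≤ P.Below (g i p.1) p.1 p.2 := fun _ _ hab => hab.2
      exact Reachable.mono hle hr
    · rintro ⟨h1, h2⟩
      refine ⟨h1, fun y hy hr => ?_⟩
      obtain ⟨i, rfl⟩ := (hB.hIn _ _).1 hy.1
      have hle : P.Below (g i p.1) p.1 p.2 ≤ P.BelowB (g i p.1) p.1 p.2 := fun _ _ hab => ⟨h1, hab⟩
      exact h2 i hy.2 (Reachable.mono hle hr)
  rw [heq]
  refine hB.hG.and (Measurable.forall fun i => Measurable.imp ?_ ?_)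
  · exact (measurable_In hB).comp (measurable_snd.prodMk ((hB.hg i).comp measurable_fst))
  · exact ((measurable_remB h hB).comp
      ((((hB.hg i).comp measurable_fst).prodMk measurable_id).prodMk measurable_snd)).not

end Data

end Pool.Agent.Helper3.TD
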