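import Pool.Agent.Helper3.TD.Comb

/-!
# Acyclicity, by chains modulo two
-/

namespace Pool.Agent.Helper3.TD

open SimpleGraph

variable {X Y : Type*}

/-- The ends of an edge. -/
noncomputable def ends (e : Sym2 X) : X →₀ ZMod 2 :=
  Sym2.lift ⟨fun a b => Finsupp.single a 1 + Finsupp.single b 1, fun _ _ => add_comm _ _⟩ e

lemma ends_mk (a b : X) : ends s(a, b) = Finsupp.single a 1 + Finsupp.single b 1 := rfl

/-- The boundary map modulo two. -/
noncomputable def bd : (Sym2 X →₀ ZMod 2) →ₗ[ZMod 2] (X →₀ ZMod 2) :=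
  Finsupp.linearCombination (ZMod 2) ends

lemma bd_single (a b : X) : bd (Finsupp.single s(a, b) (1 : ZMod 2)) =
    Finsupp.single a 1 + Finsupp.single b 1 := by
  unfold bd
  rw [Finsupp.linearCombination_single, one_smul, ends_mk]

lemma add_self_chain {α : Type*} (v : α →₀ ZMod 2) : v + v = 0 := by
  ext x
  rw [Finsupp.add_apply, Finsupp.zero_apply]
  exact CharTwo.add_self_eq_zero _

lemma zmod_two_of_ne_zero {k : ZMod 2} (h : k ≠ 0) : k = 1 := by
  revert k
  decide

/-- The sum of the values over a set. -/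
noncomputable def sumOn (Z : Set X) : (X →₀ ZMod 2) →ₗ[ZMod 2] ZMod 2 :=
  open Classical in Finsupp.linearCombination (ZMod 2) (fun x => if x ∈ Z then (1 : ZMod 2) else 0)

open Classical in
lemma sumOn_single (Z : Set X) (x : X) :
    sumOn Z (Finsupp.single x 1) = if x ∈ Z then 1 else 0 := by
  unfold sumOn
  rw [Finsupp.linearCombination_single, one_smul]

lemma map_bd_eq_zero {c : Sym2 X →₀ ZMod 2} (φ : (X →₀ ZMod 2) →ₗ[ZMod 2] ZMod 2)
    (h : ∀ e ∈ c.support, φ (ends e) = 0) : φ (bd c) = 0 := by
  unfold bd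
  rw [Finsupp.linearCombination_apply, Finsupp.sum, map_sum]
  refine Finset.sum_eq_zero fun e he => ?_
  rw [map_smul, h e he, smul_zero]

/-- A chain with boundary `a + b` joins `a` to `b`. -/
lemma conn_of_bd {K : SimpleGraph X} {c : Sym2 X →₀ ZMod 2} (hc : ∀ e ∈ c.support, e ∈ K.edgeSet)
    {a b : X} (hb : bd c = Finsupp.single a 1 + Finsupp.single b 1) : K.Reachable a b := by
  classical
  by_contra hcon
  have h1 : sumOn {x | K.Reachable a x} (bd c) = 0 := by
    apply map_bd_eq_zero
    intro e he
    have he' := hc e he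
    induction e with
    | _ u v =>
      rw [ends_mk, map_add, sumOn_single, sumOn_single]
      rw [mem_edgeSet] at he'
      by_cases hu : K.Reachable a u
      · have hv : K.Reachable a v := hu.trans he'.reachable
        have h2 : u ∈ {x | K.Reachable a x} := hu
        have h3 : v ∈ {x | K.Reachable a x} := hv
        rw [if_pos h2, if_pos h3]
        decide
      · have hv : ¬ K.Reachable a v := fun hv => hu (hv.trans he'.symm.reachable)
        have h2 : u ∉ {x | K.Reachable a x} := hu
        have h3 : v ∉ {x | K.Reachable a x} := hv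
        rw [if_neg h2, if_neg h3]
        decide
  rw [hb, map_add, sumOn_single, sumOn_single] at h1
  have h2 : a ∈ {x | K.Reachable a x} := Reachable.refl a
  have h3 : b ∉ {x | K.Reachable a x} := hcon
  rw [if_pos h2, if_neg h3] at h1
  exact absurd h1 (by decide)

/-- A chain whose boundary lives on at most two points. -/
lemma two_points {v : X →₀ ZMod 2} (hs : sumOn Set.univ v = 0)
    (h3 : ∀ a ∈ v.support, ∀ b ∈ v.support, ∀ c ∈ v.support, a = b ∨ b = c ∨ a = c) :
    v = 0 ∨ ∃ a ∈ v.support, ∃ b ∈ v.support, a ≠ b ∧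
      v = Finsupp.single a 1 + Finsupp.single b 1 := by
  classical
  by_cases h0 : v = 0
  · exact Or.inl h0
  right
  obtain ⟨a, ha⟩ := Finsupp.support_nonempty_iff.2 h0
  have hva : v a = 1 := zmod_two_of_ne_zero (Finsupp.mem_support_iff.1 ha)
  have hb : ∃ b ∈ v.support, b ≠ a := by
    by_contra hcon
    push Not at hcon
    have h1 : v = Finsupp.single a 1 := by
      ext x
      by_cases hx : x = a
      · subst hx; rw [hva, Finsupp.single_eq_same]
      · rw [Finsupp.single_apply, if_neg (fun h => hx h.symm)]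
        by_contra h2
        exact hx (hcon x (Finsupp.mem_support_iff.2 h2))
    rw [h1, sumOn_single, if_pos (Set.mem_univ _)] at hs
    exact absurd hs (by decide)
  obtain ⟨b, hb, hba⟩ := hb
  have hvb : v b = 1 := zmod_two_of_ne_zero (Finsupp.mem_support_iff.1 hb)
  refine ⟨a, ha, b, hb, hba.symm, ?_⟩
  ext x
  rw [Finsupp.add_apply, Finsupp.single_apply, Finsupp.single_apply]
  by_cases hxa : a = x
  · subst hxa
    rw [if_pos rfl, if_neg hba, hva, add_zero]
  · by_cases hxb : b = x
    · subst hxb
      rw [if_neg hxa, if_pos rfl, hvb, zero_add]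
    · rw [if_neg hxa, if_neg hxb, add_zero]
      by_contra h2
      rcases h3 a ha b hb x (Finsupp.mem_support_iff.2 h2) with h | h | h
      · exact hba h.symm
      · exact hxb h
      · exact hxa h

namespace Data

variable {P : Data X Y}

/-- The chain lies in the part `y`. -/
def InPart (P : Data X Y) (y : Y) (c : Sym2 X →₀ ZMod 2) : Prop :=
  ∀ a b, s(a, b) ∈ c.support → P.G.Adj a b ∧ y ∈ nodes P.In a b

/-- The largest edge of a cycle in a part is removed on behalf of the part. -/
lemma max_rem (h : P.Ok) {y : Y} {c : Sym2 X →₀ ZMod 2} (hc : P.InPart y c) (h0 : c ≠ 0)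
    (hb : bd c = 0) : ∃ a b, s(a, b) ∈ c.support ∧ P.Rem y a b ∧
      ∀ c' d', s(c', d') ∈ c.support → P.key c' d' ≤ P.key a b := by
  classical
  let kS : Sym2 X → ℕ ×ₗ (ℝ ×ₗ ℝ) := Sym2.lift ⟨fun a b => P.key a b, fun a b => key_symm a b⟩
  obtain ⟨e, he, hmax⟩ := Finset.exists_max_image c.support kS (Finsupp.support_nonempty_iff.2 h0)
  induction e with
  | _ a b =>
    refine ⟨a, b, he, ?_, fun c' d' h1 => hmax _ h1⟩
    have h1 : bd (c + Finsupp.single s(a, b) 1) = Finsupp.single a 1 + Finsupp.single b 1 := by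
      rw [map_add, hb, zero_add, bd_single]
    refine conn_of_bd ?_ h1
    intro e' he'
    induction e' with
    | _ c' d' =>
      have hne : s(c', d') ≠ s(a, b) := by
        intro heq
        rw [heq, Finsupp.mem_support_iff, Finsupp.add_apply, Finsupp.single_eq_same,
          zmod_two_of_ne_zero (Finsupp.mem_support_iff.1 he)] at he'
        exact he' (by decide)
      have hmem : s(c', d') ∈ c.support := by
        rw [Finsupp.mem_support_iff, Finsupp.add_apply, Finsupp.single_apply,
          if_neg (fun h => hne h.symm), add_zero] at he'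
        exact Finsupp.mem_support_iff.2 he'
      have hlt : P.key c' d' < P.key a b := by
        refine lt_of_le_of_ne (hmax _ hmem) fun heq => hne (key_inj h heq)
      rw [mem_edgeSet]
      exact ⟨(hc c' d' hmem).1, (hc c' d' hmem).2, hlt, (key_symm d' c').trans_lt hlt⟩

/-- Cycles are sums of cycles in the parts. -/
lemma gen (h : P.Ok) (hadj : ∀ y z, P.S.Adj y z → ∀ a b, P.In a y → P.In a z → P.In b y →
      P.In b z → a ≠ b → P.G.Adj a b) :
    ∀ n, ∀ H : Finset Y, H.card = n → (P.S.induce (H : Set Y)).Preconnected →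
      ∀ c : Sym2 X →₀ ZMod 2, (∀ a b, s(a, b) ∈ c.support → P.G.Adj a b ∧
        ∃ y ∈ H, y ∈ nodes P.In a b) → bd c = 0 →
      ∃ f : Y → (Sym2 X →₀ ZMod 2), (∀ y ∈ H, P.InPart y (f y) ∧ bd (f y) = 0) ∧
        c = ∑ y ∈ H, f y := by
  classical
  intro n
  induction n with
  | zero =>
    intro H hH _ c hc _
    rw [Finset.card_eq_zero] at hH
    subst hH
    refine ⟨fun _ => 0, by simp, ?_⟩
    rw [Finset.sum_empty]
    by_contra h0
    obtain ⟨e, he⟩ := Finsupp.support_nonempty_iff.2 h0
    induction e with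
    | _ a b =>
      obtain ⟨_, y, hy, _⟩ := hc a b he
      exact absurd hy (Finset.notMem_empty y)
  | succ n ih =>
    intro H hH hHc c hc hb
    by_cases hn : n = 0
    · subst hn
      rw [zero_add, Finset.card_eq_one] at hH
      obtain ⟨z, rfl⟩ := hH
      refine ⟨fun _ => c, ?_, by simp⟩
      intro y hy
      rw [Finset.mem_singleton] at hy
      subst hy
      refine ⟨?_, hb⟩
      intro a b hab
      obtain ⟨h1, y', h2, h3⟩ := hc a b hab
      rw [Finset.mem_singleton] at h2
      subst h2
      exact ⟨h1, h3⟩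
    · -- a leaf
      have hnt : Nontrivial (H : Set Y) := by
        rw [← Fintype.one_lt_card_iff_nontrivial]
        simp only [Finset.coe_sort_coe, Fintype.card_coe]
        omega
      have hne : Nonempty (H : Set Y) := inferInstance
      have hcon : (P.S.induce (H : Set Y)).Connected := ⟨hHc⟩
      obtain ⟨⟨z, hz⟩, hv⟩ := hcon.exists_connected_induce_compl_singleton_of_finite_nontrivial
      have hzH : z ∈ H := hz
      set H' : Finset Y := H.erase z with hH'
      have hcard : H'.card = n := by rw [hH', Finset.card_erase_of_mem hzH]; omega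
      have hH'c : (P.S.induce (H' : Set Y)).Preconnected := by
        rintro ⟨y, hy⟩ ⟨y', hy'⟩
        have hyH : y ∈ H ∧ y ≠ z := by
          have := Finset.mem_coe.1 hy
          rw [hH', Finset.mem_erase] at this
          exact ⟨this.2, this.1⟩
        have hyH' : y' ∈ H ∧ y' ≠ z := by
          have := Finset.mem_coe.1 hy'
          rw [hH', Finset.mem_erase] at this
          exact ⟨this.2, this.1⟩
        have h1 := hv.preconnected ⟨⟨y, hyH.1⟩, by simpa using hyH.2⟩
          ⟨⟨y', hyH'.1⟩, by simpa using hyH'.2⟩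
        let φ : ((P.S.induce (H : Set Y)).induce {(⟨z, hz⟩ : (H : Set Y))}ᶜ) →g
            P.S.induce (H' : Set Y) :=
          { toFun := fun t => ⟨t.1.1, by
              have h1 : t.1 ≠ ⟨z, hz⟩ := t.2
              have h2 : t.1.1 ≠ z := fun h => h1 (Subtype.ext h)
              rw [Finset.mem_coe, hH', Finset.mem_erase]
              exact ⟨h2, t.1.2⟩⟩
            map_rel' := fun {a b} hab => hab }
        exact h1.map φ
      have hzH' : z ∉ H' := by simp [hH']
      -- the neighbour of the leaf
      obtain ⟨y₀, hy₀⟩ : ∃ y₀, y₀ ∈ H' := by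
        rw [← Finset.Nonempty, ← Finset.card_pos]; omega
      have hfirst : ∀ y ∈ H', ∃ z₁ ∈ H', P.S.Adj z z₁ ∧ ∀ x, P.In x z → P.In x y → P.In x z₁ := by
        intro y hy
        have hyH : y ∈ H := Finset.mem_of_mem_erase hy
        obtain ⟨w⟩ := hHc ⟨z, hzH⟩ ⟨y, hyH⟩
        let w' : P.S.Walk z y := w.map (Embedding.induce _).toHom
        obtain ⟨p, hp⟩ := w'.toPath
        have h1 := path_in h.hS hHc hzH hyH p hp
        have h2 : ∀ x, P.In x z → P.In x y → ∀ t ∈ p.support, P.In x t := fun x hx hx' =>
          path_in h.hS (h.hconn x) hx hx' p hp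
        cases p with
        | nil => exact absurd hy hzH'
        | @cons _ z₁ _ hadj' p' =>
          refine ⟨z₁, ?_, hadj', fun x hx hx' => h2 x hx hx' z₁ (by simp)⟩
          rw [hH', Finset.mem_erase]
          exact ⟨hadj'.ne', h1 z₁ (by simp)⟩
      obtain ⟨z', hz'H, hzz', _⟩ := hfirst y₀ hy₀
      have hall : ∀ y ∈ H', ∀ x, P.In x z → P.In x y → P.In x z' := by
        intro y hy x hx hx'
        obtain ⟨z₁, hz₁, hadj₁, hx₁⟩ := hfirst y hy
        by_cases heq : z₁ = z'
        · subst heq; exact hx₁ x hx hx'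
        · exfalso
          have hbr := isAcyclic_iff_forall_adj_isBridge.1 h.hS hzz'
          rw [isBridge_iff] at hbr
          apply hbr
          have h1 : (P.S.deleteEdges {s(z, z')}).Reachable z z₁ := by
            apply Adj.reachable
            rw [deleteEdges_adj]
            refine ⟨hadj₁, ?_⟩
            rw [Set.mem_singleton_iff, Sym2.eq_iff]
            rintro (⟨_, h2⟩ | ⟨h2, h3⟩)
            · exact heq h2
            · exact hzH' (h2 ▸ hz'H)
          exact h1.trans (reach_delete hH'c hz₁ hz'H (fun h2 => hzH' h2.1))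
      -- split the chain
      let Q : Sym2 X → Prop := fun e => ∃ a b, e = s(a, b) ∧ ∃ y ∈ H', y ∈ nodes P.In a b
      let c₂ := c.filter Q
      let c₁ := c.filter (fun e => ¬ Q e)
      have hsum : c₂ + c₁ = c := Finsupp.filter_pos_add_filter_neg c Q
      have hc₁ : P.InPart z c₁ := by
        intro a b hab
        rw [Finsupp.support_filter, Finset.mem_filter] at hab
        obtain ⟨h1, y, hy, hy'⟩ := hc a b hab.1
        refine ⟨h1, ?_⟩
        by_cases hyz : y = z
        · subst hyz; exact hy'
        · exact absurd ⟨a, b, rfl, y, by rw [hH', Finset.mem_erase]; exact ⟨hyz, hy⟩, hy'⟩ hab.2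
      have hc₂ : ∀ a b, s(a, b) ∈ c₂.support → P.G.Adj a b ∧ ∃ y ∈ H', y ∈ nodes P.In a b := by
        intro a b hab
        rw [Finsupp.support_filter, Finset.mem_filter] at hab
        obtain ⟨h1, _⟩ := hc a b hab.1
        refine ⟨h1, ?_⟩
        obtain ⟨a', b', heq, y, hy, hy'⟩ := hab.2
        rw [Sym2.eq_iff] at heq
        rcases heq with ⟨rfl, rfl⟩ | ⟨rfl, rfl⟩
        · exact ⟨y, hy, hy'⟩
        · exact ⟨y, hy, hy'.2, hy'.1⟩
      have hbeq : bd c₁ = bd c₂ := by
        have h1 : bd c₂ + bd c₁ = 0 := by rw [← map_add, hsum, hb]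
        have h2 : bd c₁ + (bd c₂ + bd c₁) = bd c₁ := by rw [h1, add_zero]
        rw [← h2, ← add_assoc, add_comm (bd c₁) (bd c₂), add_assoc, add_self_chain, add_zero]
      -- supports of the boundaries
      have hsupp : ∀ {c : Sym2 X →₀ ZMod 2} {x : X}, x ∈ (bd c).support →
          ∃ b, s(x, b) ∈ c.support := by
        intro c x hx
        by_contra hcon
        push Not at hcon
        rw [Finsupp.mem_support_iff] at hx
        apply hx
        unfold bd
        rw [Finsupp.linearCombination_apply, Finsupp.sum, Finsupp.finsetSum_apply]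
        refine Finset.sum_eq_zero fun e he => ?_
        induction e with
        | _ u v =>
          rw [Finsupp.smul_apply, ends_mk, Finsupp.add_apply, Finsupp.single_apply,
            Finsupp.single_apply]
          have hu : u ≠ x := by rintro rfl; exact hcon v he
          have hv : v ≠ x := by rintro rfl; exact hcon u (by rw [Sym2.eq_swap]; exact he)
          rw [if_neg hu, if_neg hv, add_zero, smul_zero]
      have hin : ∀ x ∈ (bd c₁).support, P.In x z ∧ P.In x z' := by
        intro x hx
        obtain ⟨b, hb1⟩ := hsupp hx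
        rw [hbeq] at hx
        obtain ⟨b', hb2⟩ := hsupp hx
        have h1 : P.In x z := (hc₁ x b hb1).2.1
        obtain ⟨_, y, hy, hy'⟩ := hc₂ x b' hb2
        exact ⟨h1, hall y hy x h1 hy'.1⟩
      have hsum0 : sumOn Set.univ (bd c₁) = 0 := by
        apply map_bd_eq_zero
        intro e _
        induction e with
        | _ u v =>
          rw [ends_mk, map_add, sumOn_single, sumOn_single, if_pos (Set.mem_univ _),
            if_pos (Set.mem_univ _)]
          decide
      -- conclusion from a correction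
      have hfin : ∀ g : Sym2 X →₀ ZMod 2, (∀ a b, s(a, b) ∈ g.support → P.G.Adj a b ∧
          z ∈ nodes P.In a b ∧ z' ∈ nodes P.In a b) → bd g = bd c₁ →
          ∃ f : Y → (Sym2 X →₀ ZMod 2), (∀ y ∈ H, P.InPart y (f y) ∧ bd (f y) = 0) ∧
            c = ∑ y ∈ H, f y := by
        intro g hg hbg
        obtain ⟨f, hf, hfs⟩ := ih H' hcard hH'c (c₂ + g) (by
          intro a b hab
          rcases Finset.mem_union.1 (Finsupp.support_add hab) with h1 | h1
          · exact hc₂ a b h1
          · exact ⟨(hg a b h1).1, z', hz'H, (hg a b h1).2.2⟩) (by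
          rw [map_add, hbg, ← hbeq, add_self_chain])
        refine ⟨fun y => if y = z then c₁ + g else f y, ?_, ?_⟩
        · intro y hy
          beta_reduce
          by_cases hyz : y = z
          · subst hyz
            rw [if_pos rfl]
            refine ⟨?_, by rw [map_add, hbg, add_self_chain]⟩
            intro a b hab
            rcases Finset.mem_union.1 (Finsupp.support_add hab) with h1 | h1
            · exact hc₁ a b h1
            · exact ⟨(hg a b h1).1, (hg a b h1).2.1⟩
          · rw [if_neg hyz]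
            exact hf y (by rw [hH', Finset.mem_erase]; exact ⟨hyz, hy⟩)
        · rw [← Finset.add_sum_erase H _ hzH, if_pos rfl]
          have h1 : ∑ y ∈ H.erase z, (if y = z then c₁ + g else f y) = ∑ y ∈ H', f y := by
            refine Finset.sum_congr rfl fun y hy => ?_
            rw [if_neg (Finset.ne_of_mem_erase hy)]
          rw [h1, ← hfs, ← hsum]
          have h2 : c₁ + g + (c₂ + g) = c₂ + c₁ + (g + g) := by abel
          rw [h2, add_self_chain, add_zero]
      rcases two_points hsum0 (fun a ha b hb c hc => h.hadh z z' hzz' a b c (hin a ha).1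
        (hin a ha).2 (hin b hb).1 (hin b hb).2 (hin c hc).1 (hin c hc).2) with h0 | ⟨a, ha, b, hb',
        hab, heq⟩
      · exact hfin 0 (by simp) (by rw [map_zero, h0])
      · refine hfin (Finsupp.single s(a, b) 1) ?_ (by rw [bd_single, heq])
        intro a' b' hab'
        have h1 : s(a', b') = s(a, b) := by
          by_contra hne
          rw [Finsupp.mem_support_iff, Finsupp.single_apply, if_neg (fun h => hne h.symm)] at hab'
          exact hab' rfl
        have hAdj : P.G.Adj a b := hadj z z' hzz' a b (hin a ha).1 (hin a ha).2 (hin b hb').1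
          (hin b hb').2 hab
        rw [Sym2.eq_iff] at h1
        rcases h1 with ⟨rfl, rfl⟩ | ⟨rfl, rfl⟩
        · exact ⟨hAdj, ⟨(hin _ ha).1, (hin _ hb').1⟩, (hin _ ha).2, (hin _ hb').2⟩
        · exact ⟨hAdj.symm, ⟨(hin _ hb').1, (hin _ ha).1⟩, (hin _ hb').2, (hin _ ha).2⟩

/-- The chain of a walk. -/
noncomputable def chain {H : SimpleGraph X} {a b : X} (p : H.Walk a b) : Sym2 X →₀ ZMod 2 :=
  (p.edges.map fun e => Finsupp.single e (1 : ZMod 2)).sum

lemma bd_chain {H : SimpleGraph X} {a b : X} (p : H.Walk a b) :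
    bd (chain p) = Finsupp.single a 1 + Finsupp.single b 1 := by
  induction p with
  | nil => simp [chain, add_self_chain]
  | @cons a x b hadj p ih =>
    have h1 : chain (Walk.cons hadj p) = Finsupp.single s(a, x) 1 + chain p := by
      simp [chain]
    rw [h1, map_add, ih, bd_single]
    have h2 : (Finsupp.single a 1 + Finsupp.single x 1 : X →₀ ZMod 2) +
        (Finsupp.single x 1 + Finsupp.single b 1) = Finsupp.single a 1 + Finsupp.single b 1 +
        (Finsupp.single x 1 + Finsupp.single x 1) := by abel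
    rw [h2, add_self_chain, add_zero]

open Classical in
lemma chain_apply {H : SimpleGraph X} {a b : X} (p : H.Walk a b) (hp : p.IsTrail) (e : Sym2 X) :
    chain p e = if e ∈ p.edges then 1 else 0 := by
  induction p with
  | nil => simp [chain]
  | @cons a x b hadj p ih =>
    rw [Walk.isTrail_cons] at hp
    have h1 : chain (Walk.cons hadj p) = Finsupp.single s(a, x) 1 + chain p := by
      simp [chain]
    rw [h1, Finsupp.add_apply, ih hp.1, Finsupp.single_apply, Walk.edges_cons]
    by_cases he : s(a, x) = e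
    · subst he
      rw [if_pos rfl, if_neg hp.2, if_pos (by simp), add_zero]
    · rw [if_neg he, zero_add]
      have h2 : e ∈ s(a, x) :: p.edges ↔ e ∈ p.edges := by
        rw [List.mem_cons]
        exact ⟨fun h => h.resolve_left (fun h => he h.symm), Or.inr⟩
      rw [if_congr h2 rfl rfl]

/-- A finite connected set of nodes containing given nodes. -/
lemma exists_hull {S : SimpleGraph Y} (y₀ : Y) (F : List Y) (hF : ∀ y ∈ F, S.Reachable y₀ y) :
    ∃ H : Finset Y, y₀ ∈ H ∧ (∀ y ∈ F, y ∈ H) ∧ (S.induce (H : Set Y)).Preconnected := by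
  classical
  induction F with
  | nil =>
    refine ⟨{y₀}, by simp, by simp, ?_⟩
    rintro ⟨a, ha⟩ ⟨b, hb⟩
    have h1 : a = y₀ := by simpa using ha
    have h2 : b = y₀ := by simpa using hb
    subst h1; subst h2
    exact Reachable.refl _
  | cons y F ih =>
    obtain ⟨H, h1, h2, h3⟩ := ih fun y hy => hF y (by simp [hy])
    obtain ⟨w⟩ := hF y (by simp)
    refine ⟨H ∪ w.support.toFinset, by simp [h1], ?_, ?_⟩
    · intro y' hy'
      rcases List.mem_cons.1 hy' with rfl | hy'
      · simp
      · simp [h2 y' hy']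
    · have h4 := induce_union_connected h3 w.connected_induce_support.preconnected
        ⟨y₀, h1, w.start_mem_support⟩
      have h5 : ((H : Set Y) ∪ {v | v ∈ w.support}) = ((H ∪ w.support.toFinset : Finset Y) : Set Y) := by
        ext t; simp
      rw [← h5]
      exact h4.preconnected

/-- `T` is acyclic. -/
lemma T_acyclic (h : P.Ok) (hadj : ∀ y z, P.S.Adj y z → ∀ a b, P.In a y → P.In a z → P.In b y →
      P.In b z → a ≠ b → P.G.Adj a b) : P.T.IsAcyclic := by
  classical
  intro x₀ p hp
  have hc := chain_apply p hp.isTrail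
  set c := chain p with hcdef
  have hmem : ∀ e, e ∈ c.support ↔ e ∈ p.edges := by
    intro e
    rw [Finsupp.mem_support_iff, hc e]
    by_cases he : e ∈ p.edges
    · simp [he]
    · simp [he]
  have hT : ∀ a b, s(a, b) ∈ c.support → P.T.Adj a b := fun a b hab =>
    p.adj_of_mem_edges ((hmem _).1 hab)
  have hb : bd c = 0 := by rw [hcdef, bd_chain, add_self_chain]
  have h0 : c ≠ 0 := by
    intro h0
    have h1 : p.edges ≠ [] := by
      intro h2
      have := hp.three_le_length
      rw [← p.length_edges, h2] at this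
      simp at this
    obtain ⟨e, he⟩ := List.exists_mem_of_ne_nil _ h1
    have h3 := (hmem e).2 he
    rw [h0] at h3
    simp at h3
  -- nodes of the edges
  have hx₀ : ∃ y, P.In x₀ y := by
    cases p with
    | nil => exact absurd rfl hp.ne_nil
    | cons hadj' _ =>
      obtain ⟨y, hy, _⟩ := h.hedge _ _ (T_le hadj')
      exact ⟨y, hy⟩
  obtain ⟨y₀, hy₀⟩ := hx₀
  have hnY : Nonempty Y := ⟨y₀⟩
  have hnode : ∀ e ∈ p.edges, ∃ y, P.S.Reachable y₀ y ∧ ∀ a b, e = s(a, b) → y ∈ nodes P.In a b := by
    intro e he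
    induction e with
    | _ a b =>
      have h1 := p.adj_of_mem_edges he
      obtain ⟨y, hy⟩ := h.hedge a b (T_le h1)
      refine ⟨y, ?_, ?_⟩
      · have h2 : P.T.Reachable x₀ a :=
          ⟨p.takeUntil a (p.fst_mem_support_of_mem_edges he)⟩
        exact node_reach h (h2.mono T_le) hy₀ hy.1
      · intro a' b' heq
        rw [Sym2.eq_iff] at heq
        rcases heq with ⟨rfl, rfl⟩ | ⟨rfl, rfl⟩
        · exact hy
        · exact ⟨hy.2, hy.1⟩
  choose! N hN1 hN2 using hnode
  obtain ⟨H, _, hH2, hH3⟩ := exists_hull (S := P.S) y₀ (p.edges.map N) (by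
    intro y hy
    obtain ⟨e, he, rfl⟩ := List.mem_map.1 hy
    exact hN1 e he)
  obtain ⟨f, hf, hfs⟩ := gen h hadj _ H rfl hH3 c (by
    intro a b hab
    refine ⟨(hT a b hab).1, N s(a, b), hH2 _ (List.mem_map.2 ⟨_, (hmem _).1 hab, rfl⟩), ?_⟩
    exact hN2 _ ((hmem _).1 hab) a b rfl) hb
  -- the node with the largest weight
  let F := H.filter fun y => f y ≠ 0
  have hFne : F.Nonempty := by
    by_contra hcon
    rw [Finset.not_nonempty_iff_eq_empty] at hcon
    apply h0
    rw [hfs]
    refine Finset.sum_eq_zero fun y hy => ?_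
    by_contra h1
    have : y ∈ F := Finset.mem_filter.2 ⟨hy, h1⟩
    rw [hcon] at this
    exact absurd this (Finset.notMem_empty y)
  have hmax : ∀ y ∈ F, ∃ a b, s(a, b) ∈ (f y).support ∧ P.Rem y a b ∧
      ∀ c' d', s(c', d') ∈ (f y).support → P.key c' d' ≤ P.key a b := by
    intro y hy
    rw [Finset.mem_filter] at hy
    exact max_rem h (hf y hy.1).1 hy.2 (hf y hy.1).2
  have hnX : Nonempty X := ⟨x₀⟩
  choose! u v huv1 huv2 huv3 using hmax
  obtain ⟨y, hyF, hymax⟩ := Finset.exists_max_image F (fun y => P.D (u y) (v y)) hFne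
  have hyH : y ∈ H := (Finset.mem_filter.1 hyF).1
  have hin := (hf y hyH).1 _ _ (huv1 y hyF)
  have hnotT : ¬ P.T.Adj (u y) (v y) := fun hadj' => hadj'.2 y hin.2 (huv2 y hyF)
  have hcz : c s(u y, v y) = 0 := by
    by_contra h1
    exact hnotT (hT _ _ (Finsupp.mem_support_iff.2 h1))
  obtain ⟨y', hy'H, hyy', hy'⟩ : ∃ y' ∈ H, y' ≠ y ∧ f y' s(u y, v y) ≠ 0 := by
    by_contra hcon
    push Not at hcon
    rw [hfs, Finsupp.finsetSum_apply, ← Finset.add_sum_erase H _ hyH,
      Finset.sum_eq_zero (s := H.erase y) (fun y' hy' =>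
        hcon y' (Finset.mem_of_mem_erase hy') (Finset.ne_of_mem_erase hy')), add_zero] at hcz
    exact (Finsupp.mem_support_iff.1 (huv1 y hyF)) hcz
  have hy'F : y' ∈ F := by
    refine Finset.mem_filter.2 ⟨hy'H, ?_⟩
    intro h1
    rw [h1] at hy'
    exact hy' rfl
  have hmem' : s(u y, v y) ∈ (f y').support := Finsupp.mem_support_iff.2 hy'
  have hin' := (hf y' hy'H).1 _ _ hmem'
  let K : SimpleGraph X := fromEdgeSet {e | e ∈ (f y').support ∧ e ≠ s(u y, v y)}
  have hKr : K.Reachable (u y) (v y) := by
    have h1 : bd (f y' + Finsupp.single s(u y, v y) 1) =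
        Finsupp.single (u y) 1 + Finsupp.single (v y) 1 := by
      rw [map_add, (hf y' hy'H).2, zero_add, bd_single]
    refine conn_of_bd ?_ h1
    intro e' he'
    induction e' with
    | _ c' d' =>
      have hne : s(c', d') ≠ s(u y, v y) := by
        intro heq
        rw [heq, Finsupp.mem_support_iff, Finsupp.add_apply, Finsupp.single_eq_same,
          zmod_two_of_ne_zero hy'] at he'
        exact he' (by decide)
      have hmem2 : s(c', d') ∈ (f y').support := by
        rw [Finsupp.mem_support_iff, Finsupp.add_apply, Finsupp.single_apply,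
          if_neg (fun h => hne h.symm), add_zero] at he'
        exact Finsupp.mem_support_iff.2 he'
      rw [mem_edgeSet, fromEdgeSet_adj]
      exact ⟨⟨hmem2, hne⟩, ((hf y' hy'H).1 c' d' hmem2).1.ne⟩
  obtain ⟨c', d', h5, h6⟩ := drop (K := K) h hin.1 hin.2 hin'.2 hyy'.symm (huv2 y hyF) (by
    intro c' d' hcd
    rw [fromEdgeSet_adj] at hcd
    have h7 := (hf y' hy'H).1 c' d' hcd.1.1
    exact ⟨h7.1, h7.2, hcd.1.2⟩) hKr
  rw [fromEdgeSet_adj] at h5
  have h7 := D_le_of_key_le (huv3 y' hy'F c' d' h5.1.1)
  have h8 := hymax y' hy'F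
  omega

/-- `T` is acyclic inside every part. -/
lemma T_induce_acyclic (h : P.Ok) (y : Y) : (P.T.induce {x | P.In x y}).IsAcyclic := by
  classical
  intro x₀ p₀ hp₀
  let p := p₀.map (Embedding.induce {x | P.In x y}).toHom
  have hp : p.IsCycle := hp₀.map (f := (Embedding.induce {x | P.In x y}).toHom)
    Subtype.val_injective
  have hc := chain_apply p hp.isTrail
  set c := chain p with hcdef
  have hmem : ∀ e, e ∈ c.support ↔ e ∈ p.edges := by
    intro e
    rw [Finsupp.mem_support_iff, hc e]
    by_cases he : e ∈ p.edges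
    · simp [he]
    · simp [he]
  have hT : ∀ a b, s(a, b) ∈ c.support → P.T.Adj a b := fun a b hab =>
    p.adj_of_mem_edges ((hmem _).1 hab)
  have hin : ∀ a b, s(a, b) ∈ c.support → y ∈ nodes P.In a b := by
    intro a b hab
    have h1 := (hmem _).1 hab
    refine ⟨map_support p₀ a (p.fst_mem_support_of_mem_edges h1),
      map_support p₀ b (p.snd_mem_support_of_mem_edges h1)⟩
  have hb : bd c = 0 := by rw [hcdef, bd_chain, add_self_chain]
  have h0 : c ≠ 0 := by
    intro h0
    have h1 : p.edges ≠ [] := by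
      intro h2
      have := hp.three_le_length
      rw [← p.length_edges, h2] at this
      simp at this
    obtain ⟨e, he⟩ := List.exists_mem_of_ne_nil _ h1
    have h3 := (hmem e).2 he
    rw [h0] at h3
    simp at h3
  obtain ⟨a, b, h1, h2, _⟩ := max_rem (y := y) h (fun a b hab => ⟨(hT a b hab).1, hin a b hab⟩)
    h0 hb
  exact (hT a b h1).2 y (hin a b h1) h2

end Data

end Pool.Agent.Helper3.TD
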