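import Pool.Agent.Helper3.TD.Tree

/-!
# Spanning forests in graphs with a tree decomposition of adhesion two, guided by a treeing

`T₀` is a forest with the same components as `G`, and `S` is a forest of nodes `y`, each with a
finite part `{x | In x y}`. The weight `D u v` of an edge is the largest distance, in `S`, from the
nodes containing the edge to the nodes containing a point of the `T₀`-path between `u` and `v`.
-/

namespace Pool.Agent.Helper3.TD

open SimpleGraph

variable {X Y : Type*}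

/-- The data. -/
structure Data (X Y : Type*) where
  G : SimpleGraph X
  T₀ : SimpleGraph X
  S : SimpleGraph Y
  In : X → Y → Prop
  ψ : X → ℝ

namespace Data

/-- `s` lies on every `T₀`-walk from `u` to `v`. -/
def OnPath (P : Data X Y) (u v s : X) : Prop := ∀ w : P.T₀.Walk u v, s ∈ w.support

/-- The distance between `s` and the pair `u, v` is at most `n`. -/
def Near (P : Data X Y) (u v s : X) : ℕ → Prop
  | 0 => s = u ∨ s = v
  | n + 1 => ∃ y z, y ∈ nodes P.In u v ∧ P.In s z ∧ ∃ w : P.S.Walk y z, w.length ≤ n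

/-- All the points of the `T₀`-path between `u` and `v` are near. -/
def Good (P : Data X Y) (u v : X) (n : ℕ) : Prop := ∀ s, P.OnPath u v s → P.Near u v s n

/-- The weight. -/
noncomputable def D (P : Data X Y) (u v : X) : ℕ := sInf {n | P.Good u v n}

/-- The weight with ties broken. -/
noncomputable def key (P : Data X Y) (u v : X) : ℕ ×ₗ (ℝ ×ₗ ℝ) :=
  toLex (P.D u v, toLex (max (P.ψ u) (P.ψ v), min (P.ψ u) (P.ψ v)))

/-- The edges in the part `y` that are smaller than `u, v`. -/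
def Below (P : Data X Y) (y : Y) (u v : X) : SimpleGraph X where
  Adj a b := P.G.Adj a b ∧ y ∈ nodes P.In a b ∧
    (P.key a b < P.key u v ∧ P.key b a < P.key u v)
  symm := ⟨fun _ _ h => ⟨h.1.symm, ⟨h.2.1.2, h.2.1.1⟩, h.2.2.2, h.2.2.1⟩⟩
  loopless := ⟨fun _ h => P.G.loopless.irrefl _ h.1⟩

/-- The edge `u, v` is removed on behalf of the node `y`. -/
def Rem (P : Data X Y) (y : Y) (u v : X) : Prop := (P.Below y u v).Reachable u v

/-- The conditions. -/
structure Ok (P : Data X Y) : Prop where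
  hT₀ : P.T₀.IsAcyclic
  hS : P.S.IsAcyclic
  hconn : ∀ x, (P.S.induce {y | P.In x y}).Preconnected
  hedge : ∀ u v, P.G.Adj u v → ∃ y, P.In u y ∧ P.In v y
  hfin : ∀ y, {x | P.In x y}.Finite
  hadh : ∀ y z, P.S.Adj y z → ∀ a b c, P.In a y → P.In a z → P.In b y → P.In b z →
    P.In c y → P.In c z → a = b ∨ b = c ∨ a = c
  hreach : ∀ u v, P.G.Reachable u v ↔ P.T₀.Reachable u v
  hψ : Function.Injective P.ψ

variable {P : Data X Y}

lemma OnPath.symm {u v s : X} (h : P.OnPath u v s) : P.OnPath v u s := fun w => by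
  have := h w.reverse
  rwa [Walk.support_reverse, List.mem_reverse] at this

lemma Near.symm {u v s : X} {n : ℕ} (h : P.Near u v s n) : P.Near v u s n := by
  cases n with
  | zero => exact Or.symm h
  | succ n =>
    obtain ⟨y, z, hy, hz, w⟩ := h
    exact ⟨y, z, ⟨hy.2, hy.1⟩, hz, w⟩

lemma good_symm {u v : X} {n : ℕ} : P.Good u v n ↔ P.Good v u n :=
  ⟨fun h s hs => (h s hs.symm).symm, fun h s hs => (h s hs.symm).symm⟩

lemma D_symm (u v : X) : P.D u v = P.D v u := by
  unfold D
  congr 1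
  ext n
  exact good_symm

lemma key_symm (u v : X) : P.key u v = P.key v u := by
  unfold key
  rw [D_symm, max_comm, min_comm]

lemma key_lt_iff (c d a b : X) : P.key c d < P.key a b ↔ P.D c d < P.D a b ∨
    (P.D c d = P.D a b ∧ (max (P.ψ c) (P.ψ d) < max (P.ψ a) (P.ψ b) ∨
      (max (P.ψ c) (P.ψ d) = max (P.ψ a) (P.ψ b) ∧
        min (P.ψ c) (P.ψ d) < min (P.ψ a) (P.ψ b)))) := by
  unfold key
  rw [Prod.Lex.toLex_lt_toLex, Prod.Lex.toLex_lt_toLex]

lemma D_le_of_key_lt {c d a b : X} (h : P.key c d < P.key a b) : P.D c d ≤ P.D a b := by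
  rw [key_lt_iff] at h
  rcases h with h | h
  · exact h.le
  · exact h.1.le

lemma D_le_of_key_le {c d a b : X} (h : P.key c d ≤ P.key a b) : P.D c d ≤ P.D a b := by
  rcases h.lt_or_eq with h | h
  · exact D_le_of_key_lt h
  · have : (ofLex (P.key c d)).1 = (ofLex (P.key a b)).1 := by rw [h]
    exact le_of_eq this

lemma key_inj (h : P.Ok) {a b c d : X} (hk : P.key a b = P.key c d) : s(a, b) = s(c, d) := by
  have h1 := (Prod.ext_iff.1 (toLex.injective hk)).2
  have h2 := Prod.ext_iff.1 (toLex.injective h1)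
  have h3 : max (P.ψ a) (P.ψ b) = max (P.ψ c) (P.ψ d) := h2.1
  have h4 : min (P.ψ a) (P.ψ b) = min (P.ψ c) (P.ψ d) := h2.2
  rw [Sym2.eq_iff]
  rcases le_total (P.ψ a) (P.ψ b) with h5 | h5 <;> rcases le_total (P.ψ c) (P.ψ d) with h6 | h6
  · rw [max_eq_right h5, max_eq_right h6] at h3
    rw [min_eq_left h5, min_eq_left h6] at h4
    exact Or.inl ⟨h.hψ h4, h.hψ h3⟩
  · rw [max_eq_right h5, max_eq_left h6] at h3
    rw [min_eq_left h5, min_eq_right h6] at h4
    exact Or.inr ⟨h.hψ h4, h.hψ h3⟩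
  · rw [max_eq_left h5, max_eq_right h6] at h3
    rw [min_eq_right h5, min_eq_left h6] at h4
    exact Or.inr ⟨h.hψ h3, h.hψ h4⟩
  · rw [max_eq_left h5, max_eq_left h6] at h3
    rw [min_eq_right h5, min_eq_right h6] at h4
    exact Or.inl ⟨h.hψ h3, h.hψ h4⟩

lemma below_symm (y : Y) (u v : X) : P.Below y u v = P.Below y v u := by
  ext a b
  simp only [Below, key_symm u v]

lemma Rem.symm {y : Y} {u v : X} (h : P.Rem y u v) : P.Rem y v u := by
  unfold Rem at h ⊢
  rw [below_symm]
  exact Reachable.symm h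

/-- The graph `T`. -/
def T (P : Data X Y) : SimpleGraph X where
  Adj a b := P.G.Adj a b ∧ ∀ y, y ∈ nodes P.In a b → ¬ P.Rem y a b
  symm := ⟨fun _ _ h => ⟨h.1.symm, fun y hy hr => h.2 y ⟨hy.2, hy.1⟩ hr.symm⟩⟩
  loopless := ⟨fun _ h => P.G.loopless.irrefl _ h.1⟩

lemma T_le : P.T ≤ P.G := fun _ _ h => h.1

lemma near_succ {u v s : X} {n : ℕ} {y : Y} (hy : y ∈ nodes P.In u v) (h : P.Near u v s n) :
    P.Near u v s (n + 1) := by
  cases n with
  | zero =>
    rcases h with rfl | rfl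
    · exact ⟨y, y, hy, hy.1, Walk.nil, by simp⟩
    · exact ⟨y, y, hy, hy.2, Walk.nil, by simp⟩
  | succ n =>
    obtain ⟨y, z, hy, hz, w, hw⟩ := h
    exact ⟨y, z, hy, hz, w, by omega⟩

lemma near_mono {u v s : X} {n m : ℕ} {y : Y} (hy : y ∈ nodes P.In u v) (h : P.Near u v s n)
    (hnm : n ≤ m) : P.Near u v s m := by
  induction m, hnm using Nat.le_induction with
  | base => exact h
  | succ m _ ih => exact near_succ hy ih

lemma node_reach (h : P.Ok) {u s : X} {y z : Y} (hr : P.G.Reachable u s) (hy : P.In u y)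
    (hz : P.In s z) : P.S.Reachable y z := by
  have key : ∀ (x : X) {y z : Y}, P.In x y → P.In x z → P.S.Reachable y z := by
    intro x y z h1 h2
    have h3 := h.hconn x ⟨y, h1⟩ ⟨z, h2⟩
    exact h3.map (Embedding.induce _).toHom
  have h1 := reach_closed (H := P.G) (Z := {x | ∀ z, P.In x z → P.S.Reachable y z}) ?_ hr
    (fun z hz => key u hy hz)
  · exact h1 z hz
  · intro a b hab ha z hz
    obtain ⟨y', h1, h2⟩ := h.hedge a b hab
    exact (ha y' h1).trans (key b h2 hz)

lemma good_exists (h : P.Ok) {u v : X} (huv : P.G.Adj u v) : ∃ n, P.Good u v n := by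
  classical
  obtain ⟨y, hy⟩ := h.hedge u v huv
  obtain ⟨w⟩ := (h.hreach u v).1 huv.reachable
  have h1 : ∀ s ∈ w.support, ∃ n, P.Near u v s n := by
    intro s hs
    obtain ⟨y', z, hyz⟩ : ∃ y' z, y' ∈ nodes P.In u v ∧ P.In s z ∧ P.S.Reachable y' z := by
      have h2 : P.G.Reachable u s := (h.hreach u s).2 ⟨w.takeUntil s hs⟩
      -- some node contains `s`
      by_cases hus : u = s
      · subst hus
        exact ⟨y, y, hy, hy.1, Reachable.refl _⟩
      · obtain ⟨w2⟩ := h2.symm
        cases w2 with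
        | nil => exact absurd rfl hus
        | @cons _ b _ hadj _ =>
          obtain ⟨z, hz1, _⟩ := h.hedge s b hadj
          exact ⟨y, z, hy, hz1, node_reach h h2 hy.1 hz1⟩
    obtain ⟨hy', hz, ⟨w2⟩⟩ := hyz
    exact ⟨w2.length + 1, y', z, hy', hz, w2, le_rfl⟩
  have h2 : ∃ n, ∀ s ∈ w.support, P.Near u v s n := by
    have : ∀ l : List X, (∀ s ∈ l, ∃ n, P.Near u v s n) → ∃ n, ∀ s ∈ l, P.Near u v s n := by
      intro l
      induction l with
      | nil => exact fun _ => ⟨0, by simp⟩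
      | cons a l ih =>
        intro hl
        obtain ⟨n, hn⟩ := hl a (by simp)
        obtain ⟨m, hm⟩ := ih fun s hs => hl s (by simp [hs])
        refine ⟨max n m, ?_⟩
        intro s hs
        rcases List.mem_cons.1 hs with rfl | hs
        · exact near_mono hy hn (le_max_left _ _)
        · exact near_mono hy (hm s hs) (le_max_right _ _)
    exact this _ h1
  obtain ⟨n, hn⟩ := h2
  exact ⟨n, fun s hs => hn s (hs w)⟩

lemma good_D (h : P.Ok) {u v : X} (huv : P.G.Adj u v) : P.Good u v (P.D u v) :=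
  Nat.sInf_mem (s := {n | P.Good u v n}) (good_exists h huv)

lemma D_le {u v : X} {n : ℕ} (h : P.Good u v n) : P.D u v ≤ n := Nat.sInf_le h

/-- Every edge set joining `u` to `v` covers the points between them. -/
lemma cover {K : SimpleGraph X} {u v s : X} (hK : K.Reachable u v) (hs : P.OnPath u v s)
    (hsu : s ≠ u) : ∃ c d, K.Adj c d ∧ P.OnPath c d s := by
  by_contra hcon
  push Not at hcon
  have h1 := reach_closed (H := K) (Z := {x | ∃ w : P.T₀.Walk u x, s ∉ w.support}) ?_ hK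
    ⟨Walk.nil, by simpa using hsu⟩
  · obtain ⟨w, hw⟩ := h1
    exact hw (hs w)
  · rintro a b hab ⟨w, hw⟩
    have h2 := hcon a b hab
    unfold OnPath at h2
    push Not at h2
    obtain ⟨w', hw'⟩ := h2
    refine ⟨w.append w', ?_⟩
    rw [Walk.mem_support_append_iff]
    push Not
    exact ⟨hw, hw'⟩

lemma adj_of_D_zero (h : P.Ok) {u v : X} (huv : P.G.Adj u v) (h0 : P.D u v = 0) :
    P.T₀.Adj u v := by
  classical
  obtain ⟨w⟩ := (h.hreach u v).1 huv.reachable
  obtain ⟨p, hp⟩ := w.toPath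
  have hg := good_D h huv
  rw [h0] at hg
  have h1 : ∀ s ∈ p.support, s = u ∨ s = v := by
    intro s hs
    apply hg s
    intro w'
    have h2 : (⟨p, hp⟩ : P.T₀.Path u v) = w'.toPath := (h.hT₀.subsingleton_path u v).elim _ _
    have h3 : p = (w'.toPath : P.T₀.Walk u v) := congrArg Subtype.val h2
    rw [h3] at hs
    exact w'.support_toPath_subset_support hs
  cases p with
  | nil => exact absurd rfl huv.ne
  | @cons _ x _ hadj p' =>
    rcases h1 x (by simp) with rfl | rfl
    · exact absurd rfl hadj.ne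
    · exact hadj

lemma D_zero_of_adj {u v : X} (huv : P.T₀.Adj u v) : P.D u v = 0 := by
  have : P.Good u v 0 := by
    intro s hs
    have := hs (Walk.cons huv Walk.nil)
    simpa [Near] using this
  exact Nat.le_zero.1 (D_le this)

lemma not_rem_of_D_zero (h : P.Ok) {u v : X} (huv : P.G.Adj u v) (h0 : P.D u v = 0) (y : Y) :
    ¬ P.Rem y u v := by
  intro hr
  have hadj := adj_of_D_zero h huv h0
  have hbr := isAcyclic_iff_forall_adj_isBridge.1 h.hT₀ hadj
  rw [isBridge_iff] at hbr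
  apply hbr
  refine reach_of_adj ?_ hr
  intro c d hcd
  apply Adj.reachable
  rw [deleteEdges_adj]
  have h1 : P.D c d = 0 := Nat.le_zero.1 (h0 ▸ D_le_of_key_lt hcd.2.2.1)
  refine ⟨adj_of_D_zero h hcd.1 h1, ?_⟩
  intro he
  rw [Set.mem_singleton_iff, Sym2.eq_iff] at he
  rcases he with ⟨rfl, rfl⟩ | ⟨rfl, rfl⟩
  · exact lt_irrefl _ hcd.2.2.1
  · exact lt_irrefl _ hcd.2.2.2

lemma inf_le_T (h : P.Ok) : P.T₀ ⊓ P.G ≤ P.T := fun _ _ hab =>
  ⟨hab.2, fun y _ => not_rem_of_D_zero h hab.2 (D_zero_of_adj hab.1) y⟩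

/-- If `a, b` is removed on behalf of `y` then, in another part containing it, it is not replaced
by edges of at most the same weight. -/
lemma drop (h : P.Ok) {a b : X} {y y' : Y} (hab : P.G.Adj a b) (hy : y ∈ nodes P.In a b)
    (hy' : y' ∈ nodes P.In a b) (hyy : y ≠ y') (hr : P.Rem y a b) {K : SimpleGraph X}
    (hK : ∀ c d, K.Adj c d → P.G.Adj c d ∧ y' ∈ nodes P.In c d ∧ s(c, d) ≠ s(a, b))
    (hKr : K.Reachable a b) : ∃ c d, K.Adj c d ∧ P.D a b < P.D c d := by
  by_contra hcon
  push Not at hcon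
  obtain h0 | ⟨n, hn⟩ : P.D a b = 0 ∨ ∃ n, P.D a b = n + 1 := by
    cases P.D a b with
    | zero => exact Or.inl rfl
    | succ n => exact Or.inr ⟨n, rfl⟩
  · exact not_rem_of_D_zero h hab h0 y hr
  · have h1 : ¬ P.Good a b n := fun hg => by
      have := D_le hg
      omega
    unfold Good at h1
    push Not at h1
    obtain ⟨s, hs, hs'⟩ := h1
    have hsa : s ≠ a := fun h2 => hs' (near_mono hy (n := 0) (Or.inl h2) (Nat.zero_le _))
    have hsb : s ≠ b := fun h2 => hs' (near_mono hy (n := 0) (Or.inr h2) (Nat.zero_le _))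
    obtain ⟨c, d, hcd, hcds⟩ := cover hr hs hsa
    obtain ⟨c', d', hcd', hcds'⟩ := cover hKr hs hsa
    have hne : s(c, d) ≠ s(a, b) := by
      intro he
      rw [Sym2.eq_iff] at he
      rcases he with ⟨rfl, rfl⟩ | ⟨rfl, rfl⟩
      · exact lt_irrefl _ hcd.2.2.1
      · exact lt_irrefl _ hcd.2.2.2
    have hn1 : P.Near c d s (n + 1) :=
      near_mono hcd.2.1 (good_D h hcd.1 s hcds) (hn ▸ D_le_of_key_lt hcd.2.2.1)
    obtain ⟨hG', hy2, hne'⟩ := hK c' d' hcd'
    have hn2 : P.Near c' d' s (n + 1) :=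
      near_mono hy2 (good_D h hG' s hcds') (hn ▸ hcon c' d' hcd')
    obtain ⟨z₁, z₂, hz₁, hz₂, q, hq⟩ := hn1
    obtain ⟨z₃, z₄, hz₃, hz₄, q', hq'⟩ := hn2
    refine gate h.hS h.hconn h.hadh hab.ne hyy hy hy' hsa hsb (m := n) ?_ hcd.1.ne hne hcd.2.1 q
      hz₁ hz₂ hq hG'.ne hne' hy2 q' hz₃ hz₄ hq'
    intro z z' w hz hz'
    by_contra hlt
    push Not at hlt
    obtain ⟨k, rfl⟩ : ∃ k, n = k + 1 := ⟨n - 1, by omega⟩
    exact hs' ⟨z, z', hz, hz', w, by omega⟩

/-- The edges kept by the node `y` of key at most `k`. -/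
def MB (P : Data X Y) (y : Y) (u v : X) : SimpleGraph X where
  Adj a b := P.G.Adj a b ∧ y ∈ nodes P.In a b ∧ ¬ P.Rem y a b ∧
    (P.key a b ≤ P.key u v ∧ P.key b a ≤ P.key u v)
  symm := ⟨fun _ _ h => ⟨h.1.symm, ⟨h.2.1.2, h.2.1.1⟩, fun hr => h.2.2.1 hr.symm,
    h.2.2.2.2, h.2.2.2.1⟩⟩
  loopless := ⟨fun _ h => P.G.loopless.irrefl _ h.1⟩

lemma MB_mono {y : Y} {u v a b : X} (h : P.key u v ≤ P.key a b) : P.MB y u v ≤ P.MB y a b :=
  fun _ _ hcd => ⟨hcd.1, hcd.2.1, hcd.2.2.1, hcd.2.2.2.1.trans h, hcd.2.2.2.2.trans h⟩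

lemma kruskal (h : P.Ok) (y : Y) (a b : X) (hab : P.G.Adj a b) (hy : y ∈ nodes P.In a b) :
    (P.MB y a b).Reachable a b := by
  classical
  let F : Finset (X × X) := (h.hfin y).toFinset ×ˢ (h.hfin y).toFinset
  suffices H : ∀ n, ∀ a b, P.G.Adj a b → y ∈ nodes P.In a b →
      (F.filter fun q => P.key q.1 q.2 < P.key a b).card = n → (P.MB y a b).Reachable a b from
    H _ a b hab hy rfl
  intro n
  induction n using Nat.strong_induction_on with
  | _ n ih =>
    intro a b hab hy hn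
    by_cases hr : P.Rem y a b
    · refine reach_of_adj ?_ hr
      intro c d hcd
      have h1 : (P.MB y c d).Reachable c d := by
        refine ih (F.filter fun q => P.key q.1 q.2 < P.key c d).card ?_ c d hcd.1 hcd.2.1 rfl
        rw [← hn]
        apply Finset.card_lt_card
        rw [Finset.ssubset_iff_of_subset]
        · refine ⟨(c, d), ?_, ?_⟩
          · simp only [F, Finset.mem_filter, Finset.mem_product, Set.Finite.mem_toFinset,
              Set.mem_ofPred_eq]
            exact ⟨hcd.2.1, hcd.2.2.1⟩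
          · simp
        · intro q hq
          rw [Finset.mem_filter] at hq ⊢
          exact ⟨hq.1, hq.2.trans hcd.2.2.1⟩
      exact h1.mono (MB_mono hcd.2.2.1.le)
    · exact Adj.reachable ⟨hab, hy, hr, le_rfl, (key_symm b a).le⟩

lemma walk_reach {H K : SimpleGraph X} {a b : X} (p : H.Walk a b)
    (h : ∀ c d, s(c, d) ∈ p.edges → K.Reachable c d) : K.Reachable a b := by
  induction p with
  | nil => exact Reachable.refl _
  | cons hadj p ih =>
    exact (h _ _ (by simp)).trans (ih fun c d hcd => h c d (by simp [hcd]))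

/-- `T` has the same components as `G`. -/
lemma T_reach (h : P.Ok) {a b : X} (hab : P.G.Adj a b) : P.T.Reachable a b := by
  classical
  suffices H : ∀ n, ∀ a b, P.G.Adj a b → P.D a b = n → P.T.Reachable a b from H _ a b hab rfl
  intro n
  induction n using Nat.strong_induction_on with
  | _ n ih =>
    intro a b hab hn
    by_cases hT : P.T.Adj a b
    · exact hT.reachable
    · have h1 : ∃ y, y ∈ nodes P.In a b ∧ P.Rem y a b := by
        by_contra hcon
        push Not at hcon
        exact hT ⟨hab, hcon⟩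
      obtain ⟨y, hy, hr⟩ := h1
      -- the edges kept by `y` below `a, b`
      let M : SimpleGraph X :=
        { Adj := fun c d => (P.G.Adj c d ∧ y ∈ nodes P.In c d ∧ ¬ P.Rem y c d) ∧
            (P.key c d < P.key a b ∧ P.key d c < P.key a b)
          symm := ⟨fun _ _ h => ⟨⟨h.1.1.symm, ⟨h.1.2.1.2, h.1.2.1.1⟩, fun hr => h.1.2.2 hr.symm⟩,
            h.2.2, h.2.1⟩⟩
          loopless := ⟨fun _ h => P.G.loopless.irrefl _ h.1.1⟩ }
      have hM : M.Reachable a b := by
        refine reach_of_adj ?_ hr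
        intro c d hcd
        refine (kruskal h y c d hcd.1 hcd.2.1).mono ?_
        intro c' d' hcd'
        exact ⟨⟨hcd'.1, hcd'.2.1, hcd'.2.2.1⟩, hcd'.2.2.2.1.trans_lt hcd.2.2.1,
          hcd'.2.2.2.2.trans_lt hcd.2.2.1⟩
      obtain ⟨w⟩ := hM
      obtain ⟨p, hp⟩ := w.toPath
      refine walk_reach p ?_
      intro c d hcd
      have hMcd : M.Adj c d := p.adj_of_mem_edges hcd
      by_cases hTcd : P.T.Adj c d
      · exact hTcd.reachable
      · have h2 : ∃ y', y' ∈ nodes P.In c d ∧ P.Rem y' c d := by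
          by_contra hcon
          push Not at hcon
          exact hTcd ⟨hMcd.1.1, hcon⟩
        obtain ⟨y', hy', hr'⟩ := h2
        have hne : y' ≠ y := by
          rintro rfl
          exact hMcd.1.2.2 hr'
        -- the other edges of the cycle
        let K : SimpleGraph X :=
          { Adj := fun c' d' => (P.G.Adj c' d' ∧ y ∈ nodes P.In c' d' ∧ s(c', d') ≠ s(c, d)) ∧
              P.D c' d' ≤ P.D a b
            symm := ⟨fun c' d' h => ⟨⟨h.1.1.symm, ⟨h.1.2.1.2, h.1.2.1.1⟩,
              fun he => h.1.2.2 (Sym2.eq_swap.trans he)⟩, (D_symm d' c').trans_le h.2⟩⟩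
            loopless := ⟨fun _ h => P.G.loopless.irrefl _ h.1.1⟩ }
        have hK1 : ∀ {x x'}, (M.deleteEdges {s(c, d)}).Reachable x x' → K.Reachable x x' := by
          intro x x' hx
          refine hx.mono ?_
          intro c' d' hcd'
          rw [deleteEdges_adj] at hcd'
          exact ⟨⟨hcd'.1.1.1, hcd'.1.1.2.1, fun he => hcd'.2 he⟩, D_le_of_key_lt hcd'.1.2.1⟩
        have hK2 : K.Reachable a b := by
          apply Adj.reachable
          refine ⟨⟨hab, hy, ?_⟩, le_rfl⟩
          intro he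
          rw [Sym2.eq_iff] at he
          rcases he with ⟨rfl, rfl⟩ | ⟨rfl, rfl⟩
          · exact lt_irrefl _ hMcd.2.1
          · exact lt_irrefl _ hMcd.2.2
        have hK3 : K.Reachable c d := by
          rcases trail_split hp.isTrail hcd with ⟨h3, h4⟩ | ⟨h3, h4⟩
          · exact ((hK1 h3).symm.trans hK2).trans (hK1 h4).symm
          · exact ((hK1 h4).trans hK2.symm).trans (hK1 h3)
        obtain ⟨c', d', h5, h6⟩ := drop (K := K) h hMcd.1.1 hy' hMcd.1.2.1 hne hr'
          (fun c' d' (h5 : K.Adj c' d') => h5.1) hK3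
        exact ih (P.D c d) (hn ▸ h6.trans_le h5.2) c d hMcd.1.1 rfl

end Data

end Pool.Agent.Helper3.TD
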