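import Mathlib

/-!
# Walks in acyclic graphs and the gate lemma
-/

namespace Pool.Agent.Helper3.TD

open SimpleGraph

variable {V : Type*}

/-- Vertices reachable from a closed set stay in the set. -/
lemma reach_closed {H : SimpleGraph V} {Z : Set V} (h : ∀ a b, H.Adj a b → a ∈ Z → b ∈ Z)
    {x y : V} (hr : H.Reachable x y) (hx : x ∈ Z) : y ∈ Z := by
  obtain ⟨w⟩ := hr
  induction w with
  | nil => exact hx
  | cons hadj _ ih => exact ih (h _ _ hadj hx)

/-- If adjacency in `H` implies reachability in `K`, then so does reachability. -/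
lemma reach_of_adj {H K : SimpleGraph V} (h : ∀ a b, H.Adj a b → K.Reachable a b)
    {x y : V} (hr : H.Reachable x y) : K.Reachable x y :=
  reach_closed (Z := {z | K.Reachable x z}) (fun a b hab ha => ha.trans (h a b hab)) hr
    (Reachable.refl _)

lemma map_support {S : SimpleGraph V} {A : Set V} {a b : A} (w : (S.induce A).Walk a b) :
    ∀ t ∈ (w.map (Embedding.induce A).toHom).support, t ∈ A := by
  intro t ht
  rw [Walk.support_map, List.mem_map] at ht
  obtain ⟨a, _, rfl⟩ := ht
  exact a.2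

/-- In an acyclic graph, a path between two points of a connected set stays in the set. -/
lemma path_in {S : SimpleGraph V} (hS : S.IsAcyclic) {A : Set V}
    (hA : (S.induce A).Preconnected) {y z : V} (hy : y ∈ A) (hz : z ∈ A) (p : S.Walk y z)
    (hp : p.IsPath) : ∀ t ∈ p.support, t ∈ A := by
  classical
  obtain ⟨w⟩ := hA ⟨y, hy⟩ ⟨z, hz⟩
  let w' : S.Walk y z := w.map (Embedding.induce A).toHom
  have hw' : ∀ t ∈ w'.support, t ∈ A := fun t ht => map_support w t ht
  have h1 : (⟨p, hp⟩ : S.Path y z) = w'.toPath := (hS.subsingleton_path y z).elim _ _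
  have h2 : p = (w'.toPath : S.Walk y z) := congrArg Subtype.val h1
  intro t ht
  rw [h2] at ht
  exact hw' t (w'.support_toPath_subset_support ht)

/-- A connected set containing two points and not both ends of the edge `e` joins them without
the edge. -/
lemma reach_delete {S : SimpleGraph V} {A : Set V} (hA : (S.induce A).Preconnected) {y z : V}
    (hy : y ∈ A) (hz : z ∈ A) {p q : V} (hpq : ¬ (p ∈ A ∧ q ∈ A)) :
    (S.deleteEdges {s(p, q)}).Reachable y z := by
  have h1 := hA ⟨y, hy⟩ ⟨z, hz⟩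
  let φ : S.induce A →g S.deleteEdges {s(p, q)} :=
    { toFun := Subtype.val
      map_rel' := by
        intro a b hab
        rw [deleteEdges_adj]
        refine ⟨hab, ?_⟩
        simp only [Set.mem_singleton_iff, Sym2.eq_iff]
        rintro (⟨h1, h2⟩ | ⟨h1, h2⟩)
        · exact hpq ⟨h1 ▸ a.2, h2 ▸ b.2⟩
        · exact hpq ⟨h2 ▸ b.2, h1 ▸ a.2⟩ }
  exact h1.map φ

/-- Either the walk avoids the edge, or a shorter walk starts at an end of it. -/
lemma walk_delete {S : SimpleGraph V} {p q : V} {x y : V} (w : S.Walk x y) :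
    (S.deleteEdges {s(p, q)}).Reachable x y ∨
      (∃ w' : S.Walk p y, w'.length < w.length) ∨ ∃ w' : S.Walk q y, w'.length < w.length := by
  induction w with
  | nil => exact Or.inl (Reachable.refl _)
  | @cons a b c hadj w ih =>
    rcases ih with h | ⟨w', h⟩ | ⟨w', h⟩
    · by_cases he : s(a, b) = s(p, q)
      · rw [Sym2.eq_iff] at he
        rcases he with ⟨_, rfl⟩ | ⟨_, rfl⟩
        · exact Or.inr (Or.inr ⟨w, by simp⟩)
        · exact Or.inr (Or.inl ⟨w, by simp⟩)
      · left
        refine Reachable.trans (Adj.reachable ?_) h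
        rw [deleteEdges_adj]
        exact ⟨hadj, he⟩
    · exact Or.inr (Or.inl ⟨w', by simp; omega⟩)
    · exact Or.inr (Or.inr ⟨w', by simp; omega⟩)

/-- A trail through an edge joins its ends to the ends of the edge without the edge. -/
lemma trail_split {H : SimpleGraph V} {a b : V} {p : H.Walk a b} (hp : p.IsTrail) {c d : V}
    (hf : s(c, d) ∈ p.edges) :
    ((H.deleteEdges {s(c, d)}).Reachable a c ∧ (H.deleteEdges {s(c, d)}).Reachable d b) ∨
      ((H.deleteEdges {s(c, d)}).Reachable a d ∧ (H.deleteEdges {s(c, d)}).Reachable c b) := by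
  induction p with
  | nil => simp at hf
  | @cons a x b hadj p ih =>
    rw [Walk.isTrail_cons] at hp
    rw [Walk.edges_cons, List.mem_cons] at hf
    by_cases he : s(c, d) = s(a, x)
    · have h1 : (H.deleteEdges {s(c, d)}).Reachable x b := by
        refine ⟨p.toDeleteEdges _ ?_⟩
        intro e hep hee
        rw [Set.mem_singleton_iff] at hee
        subst hee
        exact hp.2 (he ▸ hep)
      rw [Sym2.eq_iff] at he
      rcases he with ⟨rfl, rfl⟩ | ⟨rfl, rfl⟩
      · exact Or.inl ⟨Reachable.refl _, h1⟩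
      · exact Or.inr ⟨Reachable.refl _, h1⟩
    · have hf' : s(c, d) ∈ p.edges := by
        rcases hf with h | h
        · exact absurd h he
        · exact h
      have h2 : (H.deleteEdges {s(c, d)}).Reachable a x := by
        apply Adj.reachable
        rw [deleteEdges_adj]
        exact ⟨hadj, fun h => he (Set.mem_singleton_iff.1 h).symm⟩
      rcases ih hp.1 hf' with ⟨h3, h4⟩ | ⟨h3, h4⟩
      · exact Or.inl ⟨h2.trans h3, h4⟩
      · exact Or.inr ⟨h2.trans h3, h4⟩

variable {X : Type*}

/-- The set of the nodes containing both `a` and `b`. -/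
def nodes (In : X → V → Prop) (a b : X) : Set V := {y | In a y ∧ In b y}

lemma nodes_connected {S : SimpleGraph V} (hS : S.IsAcyclic) {In : X → V → Prop}
    (hconn : ∀ x, (S.induce {y | In x y}).Preconnected) (a b : X) :
    (S.induce (nodes In a b)).Preconnected := by
  classical
  rintro ⟨y, hy⟩ ⟨z, hz⟩
  obtain ⟨w⟩ := hconn a ⟨y, hy.1⟩ ⟨z, hz.1⟩
  let w' : S.Walk y z := w.map (Embedding.induce _).toHom
  obtain ⟨p, hp⟩ := w'.toPath
  have h1 := path_in hS (hconn a) hy.1 hz.1 p hp
  have h2 := path_in hS (hconn b) hy.2 hz.2 p hp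
  have h3 : ∀ t ∈ p.support, t ∈ nodes In a b := fun t ht => ⟨h1 t ht, h2 t ht⟩
  exact ⟨p.induce _ h3⟩

/-- Gate lemma. -/
lemma gate {S : SimpleGraph V} (hS : S.IsAcyclic) {In : X → V → Prop}
    (hconn : ∀ x, (S.induce {y | In x y}).Preconnected)
    (hadh : ∀ y z, S.Adj y z → ∀ a b c, In a y → In a z → In b y → In b z → In c y → In c z →
      a = b ∨ b = c ∨ a = c)
    {a b : X} (hab : a ≠ b) {y y' : V} (hyy : y ≠ y') (hy : y ∈ nodes In a b)
    (hy' : y' ∈ nodes In a b) {s : X} (hsa : s ≠ a) (hsb : s ≠ b) {m : ℕ}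
    (hmin : ∀ z z' (w : S.Walk z z'), z ∈ nodes In a b → In s z' → m ≤ w.length)
    {c d : X} (hcd : c ≠ d) (hne : s(c, d) ≠ s(a, b)) (hcy : y ∈ nodes In c d)
    {z₁ z₂ : V} (q : S.Walk z₁ z₂) (hz₁ : z₁ ∈ nodes In c d) (hz₂ : In s z₂) (hq : q.length ≤ m)
    {c' d' : X} (hcd' : c' ≠ d') (hne' : s(c', d') ≠ s(a, b)) (hcy' : y' ∈ nodes In c' d')
    {z₃ z₄ : V} (q' : S.Walk z₃ z₄) (hz₃ : z₃ ∈ nodes In c' d') (hz₄ : In s z₄)
    (hq' : q'.length ≤ m) : False := by
  classical
  -- a path between `y` and `y'`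
  obtain ⟨w⟩ := nodes_connected hS hconn a b ⟨y, hy⟩ ⟨y', hy'⟩
  let w' : S.Walk y y' := w.map (Embedding.induce _).toHom
  obtain ⟨p, hp⟩ := w'.toPath
  have hin := path_in hS (nodes_connected hS hconn a b) hy hy' p hp
  cases p with
  | nil => exact hyy rfl
  | @cons _ y₁ _ hadj p' =>
    rw [Walk.cons_isPath_iff] at hp
    have hy₁ : y₁ ∈ nodes In a b := hin y₁ (by simp)
    have h3 : ∀ {c d : X}, c ≠ d → s(c, d) ≠ s(a, b) → ¬ (y ∈ nodes In c d ∧ y₁ ∈ nodes In c d) := by
      rintro c d hcd hne ⟨h1, h2⟩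
      by_cases hc : c = a ∨ c = b
      · by_cases hd : d = a ∨ d = b
        · apply hne
          rw [Sym2.eq_iff]
          rcases hc with rfl | rfl <;> rcases hd with rfl | rfl
          · exact absurd rfl hcd
          · exact Or.inl ⟨rfl, rfl⟩
          · exact Or.inr ⟨rfl, rfl⟩
          · exact absurd rfl hcd
        · push Not at hd
          rcases hadh y y₁ hadj a b d hy.1 hy₁.1 hy.2 hy₁.2 h1.2 h2.2 with h | h | h
          · exact hab h
          · exact hd.2 h.symm
          · exact hd.1 h.symm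
      · push Not at hc
        rcases hadh y y₁ hadj a b c hy.1 hy₁.1 hy.2 hy₁.2 h1.1 h2.1 with h | h | h
        · exact hab h
        · exact hc.2 h.symm
        · exact hc.1 h.symm
    have hbr := isAcyclic_iff_forall_adj_isBridge.1 hS hadj
    rw [isBridge_iff] at hbr
    set H := S.deleteEdges {s(y, y₁)} with hH
    -- the tail
    have r0 : H.Reachable y₁ y' := by
      refine ⟨p'.toDeleteEdges _ ?_⟩
      intro e he hee
      rw [Set.mem_singleton_iff] at hee
      subst hee
      exact hp.2 (p'.fst_mem_support_of_mem_edges he)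
    have r1 : H.Reachable y z₁ := reach_delete (nodes_connected hS hconn c d) hcy hz₁ (h3 hcd hne)
    have r5 : H.Reachable z₃ y' :=
      reach_delete (nodes_connected hS hconn c' d') hz₃ hcy' (h3 hcd' hne')
    have r3 : H.Reachable z₂ z₄ := by
      refine reach_delete (hconn s) hz₂ hz₄ ?_
      rintro ⟨h1, h2⟩
      rcases hadh y y₁ hadj a b s hy.1 hy₁.1 hy.2 hy₁.2 h1 h2 with h | h | h
      · exact hab h
      · exact hsb h.symm
      · exact hsa h.symm
    have r2 : ∀ {z₁ z₂ : V} (q : S.Walk z₁ z₂), In s z₂ → q.length ≤ m → H.Reachable z₁ z₂ := by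
      intro z₁ z₂ q hz₂ hq
      rcases walk_delete (p := y) (q := y₁) q with h | ⟨w', h⟩ | ⟨w', h⟩
      · exact h
      · have := hmin _ _ w' hy hz₂; omega
      · have := hmin _ _ w' hy₁ hz₂; omega
    apply hbr
    exact (((r1.trans (r2 q hz₂ hq)).trans r3).trans (r2 q' hz₄ hq').symm).trans
      (r5.trans r0.symm)

end Pool.Agent.Helper3.TD
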